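import Pool.Agent.J4H20.AS.Sets
import Pool.Agent.J4H22.AS.TIE
import Pool.Agent.J4H22.AS.BR
import Pool.Agent.J4H28.AS.ALG
import Pool.Agent.J4H28.AS.BLK
import Pool.Agent.J4H28.AS.ROOT
import Pool.Agent.J4H51.AS.CNT

/-!
# Project AS6: assembly
-/

set_option autoImplicit false

namespace Pool.Agent.J4H20.AS

open Polynomial Pool.Agent.W289.CG Pool.Agent.W460.CG Pool.Agent.TH665.CG6
open Pool.Agent.J4H22.AS Pool.Agent.J4H28.AS Pool.Agent.J4H51.AS

noncomputable section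

/-- the image in the reals -/
def im (T : Finset ℚ) : Finset ℝ := T.image fun s : ℚ => (s : ℝ)

lemma RP_im (T : Finset ℚ) : RP (im T) = toR (PS T) := by
  unfold RP im toR PS
  rw [Finset.prod_image fun _ _ _ _ h => Rat.cast_injective h, Polynomial.map_prod]
  simp

lemma im_card (T : Finset ℚ) : (im T).card = T.card :=
  Finset.card_image_of_injective _ Rat.cast_injective

lemma exists_interval (V : Finset ℝ) :
    ∃ c d : ℝ, 0 < c ∧ c < d ∧ d < 36 ∧ ∀ κ, c < κ → κ < d → κ ∉ V := by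
  have h1 : IsOpen (Set.Ioo (0 : ℝ) 36 ∩ (V : Set ℝ)ᶜ) :=
    isOpen_Ioo.inter V.finite_toSet.isClosed.isOpen_compl
  have h2 : (Set.Ioo (0 : ℝ) 36 ∩ (V : Set ℝ)ᶜ).Nonempty := by
    obtain ⟨x, hx⟩ := ((Set.Ioo_infinite (show (0 : ℝ) < 36 by norm_num)).sdiff
      V.finite_toSet).nonempty
    exact ⟨x, hx.1, hx.2⟩
  obtain ⟨x, hx⟩ := h2
  obtain ⟨a, b, hab, hsub⟩ := mem_nhds_iff_exists_Ioo_subset.1 (h1.mem_nhds hx)
  have h3 : (a + x) / 2 ∈ Set.Ioo a b := ⟨by linarith [hab.1], by linarith [hab.1, hab.2]⟩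
  refine ⟨(a + x) / 2, x, (hsub h3).1.1, by linarith [hab.1], hx.1.2, fun κ k1 k2 => ?_⟩
  exact (hsub ⟨by linarith [hab.1], by linarith [hab.2]⟩).2

lemma Good.hyp {T : Finset ℚ} {x₀ : ℚ} (h : Good T x₀) :
    ∃ c d : ℝ, 0 < c ∧ d < 36 ∧ Hyp (toR (PS T)) c d := by
  classical
  obtain ⟨c, d, h1, h2, h3, h4⟩ := exists_interval ((im T).image fun t => GP.eval t)
  refine ⟨c, d, h1, h3, h2, ?_, fun x h5 h6 => h.cop x h6 h5⟩
  intro κ k1 k2
  obtain ⟨U, u1, u2⟩ := t_ROOT κ (by linarith) (by linarith)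
  refine ⟨im T ∪ U, ?_, ?_⟩
  · obtain ⟨u, hu⟩ := Finset.card_pos.1 (by omega : 0 < U.card)
    exact ⟨u, Finset.mem_union_right _ hu⟩
  · have hdis : Disjoint (im T) U := by
      rw [Finset.disjoint_left]
      intro t ht htU
      have h7 : (RP U).eval t = 0 := by
        unfold RP
        rw [eval_prod]
        exact Finset.prod_eq_zero htU (by simp)
      rw [u2, eval_sub, eval_C, sub_eq_zero] at h7
      exact h4 κ k1 k2 (Finset.mem_image.2 ⟨t, ht, h7⟩)
    have h8 : RP (im T ∪ U) = RP (im T) * RP U := by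
      unfold RP
      exact Finset.prod_union hdis
    rw [h8, u2, RP_im]

lemma Good.notie {T : Finset ℚ} {x₀ : ℚ} (h : Good T x₀) :
    ∃ c d : ℝ, 0 < c ∧ c < d ∧ d < 36 ∧ ∀ κ, c < κ → κ < d →
      NoTie (toR (PS T) * (GP - C κ)) := by
  obtain ⟨c, d, h1, h2, h3⟩ := h.hyp
  rcases t_TIE t_BR _ c d h3 with ⟨c', d', a1, a2, a3, a4⟩ | hinf
  · exact ⟨c', d', by linarith, a2, by linarith, a4⟩
  · exfalso
    have e1 : cx (2 / 11) = (((18 / 7 : ℚ)) : ℝ) := by
      unfold cx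
      norm_num
    have e2 : cy (2 / 11) = (((1 / 7 : ℚ)) : ℝ) := by
      unfold cy
      norm_num
    rcases t_ALG _ hinf with h4 | h4 | h4
    · have h5 := h4 (x₀ : ℝ)
      rw [← Rat.cast_neg, toR_eval, toR_eval] at h5
      exact h.ne1 (by exact_mod_cast h5)
    · have h5 := h4 (2 / 11)
      rw [e1, e2, toR_eval, toR_eval] at h5
      exact h.ne2 (by exact_mod_cast h5)
    · have h5 := h4 (2 / 11)
      rw [e1, e2, ← Rat.cast_neg, toR_eval, toR_eval] at h5
      exact h.ne3 (by exact_mod_cast h5)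

theorem Good.final {T : Finset ℚ} {x₀ : ℚ} (h : Good T x₀) :
    ∃ (S : Finset ℚ) (w : ℚ), S.card = T.card + 6 ∧ 0 < w ∧ Eq6 S w ∧
      (∀ j, (derivative (PS S)).eval (x6 j) ≠ 0) ∧ (∃ s ∈ S, 3 < s) ∧ NoTie (RP (im S)) := by
  classical
  obtain ⟨w, hw, h6⟩ := h.eq6
  obtain ⟨s, hs, hs3⟩ := h.big
  obtain ⟨c, d, h1, h2, h3, h4⟩ := h.notie
  let G : Finset ℚ := Finset.univ.image fun j : Fin 6 =>
    36 + 2 * w * ((x6 j ^ 3 - 7 * x6 j) * (3 * x6 j ^ 2 - 7)) / (derivative (PS T)).eval (x6 j)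
  have hd' : √d ≤ 6 := by
    rw [Real.sqrt_le_iff]
    exact ⟨by norm_num, by linarith⟩
  obtain ⟨B, k, k1, k2, k3, k4, k5, k6⟩ := t_BLK (√c) (√d) (Real.sqrt_nonneg _)
    (Real.sqrt_lt_sqrt h1.le h2) hd' (T ∪ G.image Rat.sqrt)
  have k2' : Disjoint T B := Disjoint.mono_left Finset.subset_union_left k2
  have hk0 : (0 : ℝ) < k := lt_of_le_of_lt (Real.sqrt_nonneg _) k3
  have hk0' : 0 < k := by exact_mod_cast hk0
  have hc : c < (k : ℝ) ^ 2 := (Real.sqrt_lt' hk0).1 k3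
  have hd : (k : ℝ) ^ 2 < d := (Real.lt_sqrt hk0.le).1 k4
  have hk : 0 < 36 - k ^ 2 := by
    have : ((k ^ 2 : ℚ) : ℝ) < ((36 : ℚ) : ℝ) := by
      push_cast
      linarith
    have := Rat.cast_lt.1 this
    linarith
  have kG : k ^ 2 ∉ G := by
    intro h7
    apply k5
    refine Finset.mem_union_right _ (Finset.mem_image.2 ⟨_, h7, ?_⟩)
    rw [sq, Rat.sqrt_eq, abs_of_pos hk0']
  refine ⟨T ∪ B, w * (36 - k ^ 2), ?_, by positivity, h6.union k2' (eq6_block k6), ?_,
    ⟨s, Finset.mem_union_left _ hs, hs3⟩, ?_⟩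
  · rw [Finset.card_union_of_disjoint k2', k1]
  · intro j h0
    have hB : (derivative (PS B)).eval (x6 j) =
        2 * ((x6 j ^ 3 - 7 * x6 j) * (3 * x6 j ^ 2 - 7)) := by
      have hder : derivative ((X ^ 3 - C 7 * X : ℚ[X]) ^ 2 - C (k ^ 2)) =
          C 2 * (X ^ 3 - C 7 * X) * (C 3 * X ^ 2 - C 7) := by
        rw [derivative_sub, derivative_C, sub_zero, derivative_sq, derivative_sub,
          derivative_X_pow, derivative_C_mul, derivative_X]
        norm_num
      rw [k6, hder]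
      simp only [eval_mul, eval_sub, eval_pow, eval_X, eval_C]
      ring
    rw [PS_union k2', derivative_mul, eval_add, eval_mul, eval_mul, eq6_block k6 j, hB, h6 j]
      at h0
    by_cases hd : (derivative (PS T)).eval (x6 j) = 0
    · rw [hd, zero_mul, zero_add] at h0
      have := dx6 j
      rcases mul_eq_zero.1 h0 with h4 | h4
      · exact hw.ne' h4
      · rcases mul_eq_zero.1 h4 with h5 | h5
        · norm_num at h5
        · exact this h5
    · apply kG
      rw [Finset.mem_image]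
      refine ⟨j, Finset.mem_univ _, ?_⟩
      field_simp
      linear_combination h0
  · rw [RP_im, PS_union k2', toR_mul, k6, toR_block]
    exact h4 _ hc hd

/-- as `of_set6`, with the roots of `D` -/
lemma of_set6' (n : ℕ) (S : Finset ℚ) (v : ℚ) (hcard : S.card = n) (hv : 0 < v) (h3 : Eq6 S v)
    (hd : ∀ j, (derivative (PS S)).eval (x6 j) ≠ 0) (hlt : ∃ s ∈ S, 3 < s) :
    ∃ (D : Dat n 6) (N : ℕ) (e : Fin n ≃ S), 0 < N ∧ ∀ i, (D.a i : ℚ) = N * (e i : ℚ) := by
  classical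
  let e : Fin n ≃ S := (S.equivFinOfCardEq hcard).symm
  let D : ℕ := ∏ t ∈ S, t.den
  have hD : 0 < D := Finset.prod_pos fun t _ => t.den_pos
  have hDQ : (0 : ℚ) < D := by exact_mod_cast hD
  have hz : ∀ i : Fin n, ∃ z : ℤ, (z : ℚ) = D * (e i : ℚ) := by
    intro i
    obtain ⟨m, hm⟩ : (e i : ℚ).den ∣ D := Finset.dvd_prod_of_mem _ (e i).2
    refine ⟨m * (e i : ℚ).num, ?_⟩
    rw [hm]
    push_cast
    have h1 := Rat.num_div_den (e i : ℚ)
    have h2 : ((e i : ℚ).den : ℚ) ≠ 0 := by exact_mod_cast (e i : ℚ).den_ne_zero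
    rw [div_eq_iff h2] at h1
    rw [h1]
    ring
  choose a ha using hz
  let b : Fin 6 → ℤ := ![-(3 * D : ℤ), -(2 * D : ℤ), -(D : ℤ), (D : ℤ), (2 * D : ℤ), (3 * D : ℤ)]
  have hb : ∀ j, (b j : ℚ) = D * x6 j := by
    intro j
    fin_cases j <;> simp [b, x6, mul_comm]
  have hprod : ∀ y : ℚ, ∏ i, (y - (e i : ℚ)) = (PS S).eval y := by
    intro y
    unfold PS
    rw [eval_prod, Equiv.prod_comp e (fun s : S => y - (s : ℚ)),
      Finset.prod_coe_sort S (fun s => y - s)]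
    exact Finset.prod_congr rfl fun s _ => by simp
  have hev : ∀ (z : ℤ) (y : ℚ), (z : ℚ) = D * y →
      (((pA a).eval z : ℤ) : ℚ) = (D : ℚ) ^ n * (PS S).eval y := by
    intro z y hzy
    unfold pA
    rw [eval_prod]
    simp only [eval_sub, eval_X, eval_C]
    push_cast
    rw [← hprod y]
    have : ∀ i, (z : ℚ) - (a i : ℚ) = D * (y - (e i : ℚ)) := by
      intro i
      rw [hzy, ha]
      ring
    rw [Finset.prod_congr rfl fun i _ => this i, Finset.prod_mul_distrib, Finset.prod_const,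
      Finset.card_univ, Fintype.card_fin]
  have hx1 : ∀ j, x6 j ≤ 3 := by
    intro j
    fin_cases j <;> simp [x6] <;> norm_num
  have hxinj : Function.Injective x6 := by
    intro i j hij
    fin_cases i <;> fin_cases j <;> simp [x6] at hij ⊢ <;> norm_num at hij
  have hcomp : ((pA a).map (Int.castRingHom ℚ)).comp (C (D : ℚ) * X) =
      C ((D : ℚ) ^ n) * PS S := by
    unfold pA PS
    rw [Polynomial.map_prod, prod_comp]
    have h1 : ∏ s ∈ S, (X - C s : ℚ[X]) = ∏ i, (X - C (e i : ℚ)) := by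
      rw [Equiv.prod_comp e (fun s : S => (X - C (s : ℚ) : ℚ[X])),
        Finset.prod_coe_sort S (fun s => (X - C s : ℚ[X]))]
    rw [h1]
    have h2 : ∀ i, ((X - C (a i)).map (Int.castRingHom ℚ)).comp (C (D : ℚ) * X) =
        C (D : ℚ) * (X - C (e i : ℚ)) := by
      intro i
      rw [Polynomial.map_sub, map_X, map_C, sub_comp, X_comp, C_comp]
      change C (D : ℚ) * X - C ((a i : ℤ) : ℚ) = _
      rw [ha, C_mul]
      ring
    rw [Finset.prod_congr rfl fun i _ => h2 i, Finset.prod_mul_distrib, Finset.prod_const,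
      Finset.card_univ, Fintype.card_fin, C_pow]
  refine ⟨{ a := a, b := b, c := (pA a).eval (b 0), ha := ?_, hb := ?_, hc := ?_, hab := ?_,
            hder := ?_, hlt := ?_ }, D, e, hD, ha⟩
  · intro i j hij
    apply e.injective
    apply Subtype.ext
    have h1 := ha i
    rw [hij, ha j] at h1
    exact (mul_left_cancel₀ hDQ.ne' h1).symm
  · intro i j hij
    apply hxinj
    have h1 := hb i
    rw [hij, hb j] at h1
    exact (mul_left_cancel₀ hDQ.ne' h1).symm
  · have h1 := hev (b 0) (x6 0) (hb 0)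
    rw [h3 0] at h1
    have h2 : (0 : ℚ) < (((pA a).eval (b 0) : ℤ) : ℚ) := by
      rw [h1]
      positivity
    exact_mod_cast h2
  · intro j
    have h1 := hev (b j) (x6 j) (hb j)
    have h2 := hev (b 0) (x6 0) (hb 0)
    rw [h3 j] at h1
    rw [h3 0, ← h1] at h2
    exact_mod_cast h2.symm
  · intro j h0
    apply hd j
    have h1 := congrArg derivative hcomp
    rw [derivative_comp, derivative_C_mul, derivative_C_mul, derivative_X, mul_one] at h1
    have h2 := congrArg (eval (x6 j)) h1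
    rw [eval_mul, eval_C, eval_comp, eval_mul, eval_C, eval_X, eval_mul, eval_C] at h2
    have h4 : eval ((D : ℚ) * x6 j) (derivative ((pA a).map (Int.castRingHom ℚ))) = 0 := by
      rw [← hb j, derivative_map]
      have h5 : ((b j : ℤ) : ℚ) = Int.castRingHom ℚ (b j) := rfl
      rw [h5, eval_map, eval₂_hom, h0, map_zero]
    rw [h4, mul_zero] at h2
    have h5 : ((D : ℚ) ^ n) ≠ 0 := by positivity
    exact (mul_eq_zero.1 h2.symm).resolve_left h5
  · intro j
    obtain ⟨s, hs, hs1⟩ := hlt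
    refine ⟨e.symm ⟨s, hs⟩, ?_⟩
    have h1 := ha (e.symm ⟨s, hs⟩)
    rw [Equiv.apply_symm_apply] at h1
    have h2 : ((b j : ℤ) : ℚ) < (a (e.symm ⟨s, hs⟩) : ℤ) := by
      rw [h1, hb j]
      apply mul_lt_mul_of_pos_left _ hDQ
      exact (hx1 j).trans_lt hs1
    exact_mod_cast h2

/-- data with six equal values and every number of real roots -/
theorem dat_all (n r : ℕ) (hn : 61 ≤ n ∨ (n % 6 = 4 ∧ 34 ≤ n) ∨ (n % 6 = 5 ∧ 35 ≤ n) ∨
    (n % 6 = 1 ∧ 37 ≤ n) ∨ (n % 6 = 2 ∧ 50 ≤ n) ∨ (n % 6 = 3 ∧ 51 ≤ n)) (hr : r ≤ n)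
    (hr2 : r % 2 = n % 2) : ∃ (D : Dat n 6) (v₁ v₂ : ℝ), 0 < v₁ ∧ v₁ < v₂ ∧
      ∀ v, v₁ < v → v < v₂ → {x : ℝ | ∏ i, (x - (D.a i : ℝ)) = - v}.ncard = r := by
  classical
  obtain ⟨T, hT, hG⟩ := base_all n hn
  obtain ⟨S, w, s1, s2, s3, s4, s5, s6⟩ := hG.final
  have hS : S.card = n := by omega
  obtain ⟨D, N, e, hN, ha⟩ := of_set6' n S w hS s2 s3 s4 s5
  have hNR : (0 : ℝ) < N := by exact_mod_cast hN
  have hne : (im S).Nonempty := by
    rw [← Finset.card_pos, im_card]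
    omega
  obtain ⟨v₁, v₂, h1, h2, h3⟩ := t_CNT (im S) hne s6 r (by rw [im_card]; omega)
    (by rw [im_card]; omega)
  have hNn : (0 : ℝ) < (N : ℝ) ^ n := by positivity
  refine ⟨D, N ^ n * v₁, N ^ n * v₂, by positivity, by gcongr, fun v hv1 hv2 => ?_⟩
  have haR : ∀ i, (D.a i : ℝ) = N * ((e i : ℚ) : ℝ) := by
    intro i
    have := ha i
    exact_mod_cast congrArg (fun q : ℚ => (q : ℝ)) this
  have hprod : ∀ x : ℝ, ∏ i, (N * x - (D.a i : ℝ)) = N ^ n * (RP (im S)).eval x := by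
    intro x
    have h4 : (RP (im S)).eval x = ∏ i, (x - ((e i : ℚ) : ℝ)) := by
      unfold RP im
      rw [eval_prod, Finset.prod_image fun _ _ _ _ h => Rat.cast_injective h,
        Equiv.prod_comp e (fun s : S => x - ((s : ℚ) : ℝ)),
        Finset.prod_coe_sort S (fun s : ℚ => x - (s : ℝ))]
      exact Finset.prod_congr rfl fun s _ => by simp
    rw [h4]
    have h5 : ∀ i, (N : ℝ) * x - (D.a i : ℝ) = N * (x - ((e i : ℚ) : ℝ)) := by
      intro i
      rw [haR]
      ring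
    rw [Finset.prod_congr rfl fun i _ => h5 i, Finset.prod_mul_distrib, Finset.prod_const,
      Finset.card_univ, Fintype.card_fin]
  have hset : {x : ℝ | ∏ i, (x - (D.a i : ℝ)) = - v} =
      (fun x : ℝ => (N : ℝ) * x) '' {x : ℝ | (RP (im S)).eval x = - (v / N ^ n)} := by
    ext y
    simp only [Set.mem_ofPred_eq, Set.mem_image]
    constructor
    · intro h4
      refine ⟨y / N, ?_, by field_simp⟩
      have h5 := hprod (y / N)
      rw [mul_div_cancel₀ y hNR.ne', h4] at h5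
      field_simp
      linarith
    · rintro ⟨x, h4, rfl⟩
      rw [hprod, h4]
      field_simp
  rw [hset, Set.ncard_image_of_injective _ (mul_right_injective₀ hNR.ne')]
  exact h3 _ ((lt_div_iff₀' hNn).2 hv1) ((div_lt_iff₀' hNn).2 hv2)

end

end Pool.Agent.J4H20.AS
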