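import Pool.Agent.J4H20.AS.Good

/-!
# Project AS6: certificates for explicit sets of roots
-/

set_option autoImplicit false

namespace Pool.Agent.J4H20.AS

open Polynomial Pool.Agent.W460.CG Pool.Agent.TH665.CG6

/-- the derivative at `x` of the product of the `q X - p` -/
def nd (x : ℤ) : List (ℤ × ℤ) → ℤ
  | [] => 0
  | p :: l => p.2 * nm x l + (x * p.2 - p.1) * nd x l

/-- denominator of the sum of the `1 / (7 - e s ^ 2)`, `s = p / q` -/
def dd (e : ℤ) : List (ℤ × ℤ) → ℤ
  | [] => 1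
  | p :: l => (7 * (p.2 * p.2) - e * (p.1 * p.1)) * dd e l

/-- numerator of the sum of the `1 / (7 - e s ^ 2)`, `s = p / q` -/
def nn (e : ℤ) : List (ℤ × ℤ) → ℤ
  | [] => 0
  | p :: l => p.2 * p.2 * dd e l + (7 * (p.2 * p.2) - e * (p.1 * p.1)) * nn e l

/-- the product of the numbers `x q - 7 p` -/
def nm7 (x : ℤ) : List (ℤ × ℤ) → ℤ
  | [] => 1
  | p :: l => (x * p.2 - 7 * p.1) * nm7 x l

/-- a certificate -/
def cert (l : List (ℤ × ℤ)) (c x₀ : ℤ) : Prop :=
  blk l c ∧ nm (-x₀) l ≠ nm x₀ l ∧ nm7 18 l ≠ nm7 1 l ∧ nm7 18 l ≠ nm7 (-1) l ∧ nd 0 l ≠ 0 ∧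
    nn 1 l ≠ 0 ∧ nn 3 l ≠ 0

instance (l : List (ℤ × ℤ)) (c x₀ : ℤ) : Decidable (cert l c x₀) := by
  unfold cert
  infer_instance

noncomputable section

/-- the polynomial with the roots in the list -/
def PL (l : List (ℤ × ℤ)) : ℝ[X] := ((l.map fr).map fun s : ℚ => (X - C (s : ℝ) : ℝ[X])).prod

lemma PL_nil : PL [] = 1 := by simp [PL]

lemma PL_cons (p : ℤ × ℤ) (l : List (ℤ × ℤ)) :
    PL (p :: l) = (X - C ((fr p : ℚ) : ℝ)) * PL l := by
  simp [PL]

lemma toR_PS (l : List (ℤ × ℤ)) (h : (l.map fr).Nodup) : toR (PS (l.map fr).toFinset) = PL l := by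
  unfold toR PS PL
  rw [Polynomial.map_prod, List.prod_toFinset _ h]
  congr 1
  apply List.map_congr_left
  intro s _
  simp

lemma PL_eval (l : List (ℤ × ℤ)) (h : ∀ p ∈ l, 0 < p.2) (x : ℤ) :
    (PL l).eval (x : ℝ) = (nm x l : ℝ) / dn l := by
  induction l with
  | nil => simp [PL, nm, dn]
  | cons p l ih =>
    have h1 : (0 : ℝ) < p.2 := by exact_mod_cast h p List.mem_cons_self
    rw [PL_cons, eval_mul, ih fun q hq => h q (List.mem_cons_of_mem _ hq), nm_cons, dn_cons,
      eval_sub, eval_X, eval_C]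
    unfold fr
    push_cast
    rw [mul_div_mul_comm]
    congr 1
    field_simp

lemma PL_der (l : List (ℤ × ℤ)) (h : ∀ p ∈ l, 0 < p.2) (x : ℤ) :
    (derivative (PL l)).eval (x : ℝ) = (nd x l : ℝ) / dn l := by
  induction l with
  | nil => simp [PL, nd]
  | cons p l ih =>
    have h1 : (0 : ℝ) < p.2 := by exact_mod_cast h p List.mem_cons_self
    have h2 : (0 : ℝ) < dn l := by
      exact_mod_cast dn_pos l fun q hq => h q (List.mem_cons_of_mem _ hq)
    rw [PL_cons, derivative_mul, eval_add, eval_mul, eval_mul,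
      ih fun q hq => h q (List.mem_cons_of_mem _ hq),
      PL_eval l fun q hq => h q (List.mem_cons_of_mem _ hq), dn_cons]
    rw [derivative_X_sub_C, eval_one, one_mul, eval_sub, eval_X, eval_C]
    simp only [nd, fr]
    push_cast
    field_simp

lemma irr_ne {x : ℝ} {e : ℤ} (he : e = 1 ∨ e = 3) (hx : (e : ℝ) * x ^ 2 = 7) (s : ℚ) :
    x ≠ (s : ℝ) := by
  rintro rfl
  have h1 : (e : ℚ) * s ^ 2 = 7 := by exact_mod_cast hx
  rcases he with rfl | rfl
  · have h2 : IsSquare (7 : ℚ) := ⟨s, by push_cast at h1; linarith⟩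
    have h3 : ¬ IsSquare (7 : ℚ) := by
      rw [Rat.isSquare_iff]
      intro h4
      obtain ⟨n, hn⟩ := h4.1
      have h5 : n * n = 7 := by simpa using hn.symm
      have h6 : n ≤ 2 ∧ -2 ≤ n := ⟨by nlinarith, by nlinarith⟩
      have h7 : n = -2 ∨ n = -1 ∨ n = 0 ∨ n = 1 ∨ n = 2 := by omega
      rcases h7 with rfl | rfl | rfl | rfl | rfl <;> omega
    exact h3 h2
  · have h2 : IsSquare (21 : ℚ) := ⟨3 * s, by push_cast at h1; linarith⟩
    have h3 : ¬ IsSquare (21 : ℚ) := by
      rw [Rat.isSquare_iff]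
      intro h4
      obtain ⟨n, hn⟩ := h4.1
      have h5 : n * n = 21 := by simpa using hn.symm
      have h6 : n ≤ 4 ∧ -4 ≤ n := ⟨by nlinarith, by nlinarith⟩
      have h7 : n = -4 ∨ n = -3 ∨ n = -2 ∨ n = -1 ∨ n = 0 ∨ n = 1 ∨ n = 2 ∨ n = 3 ∨ n = 4 := by
        omega
      rcases h7 with rfl | rfl | rfl | rfl | rfl | rfl | rfl | rfl | rfl <;> omega
    exact h3 h2

lemma PL_ne (l : List (ℤ × ℤ)) {x : ℝ} (hx : ∀ s : ℚ, x ≠ (s : ℝ)) : (PL l).eval x ≠ 0 := by
  induction l with
  | nil => simp [PL]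
  | cons p l ih =>
    rw [PL_cons, eval_mul, eval_sub, eval_X, eval_C]
    exact mul_ne_zero (sub_ne_zero.2 (hx _)) ih

lemma PL_irr (l : List (ℤ × ℤ)) (h : ∀ p ∈ l, 0 < p.2) {x : ℝ} {e : ℤ} (he : e = 1 ∨ e = 3)
    (hx : (e : ℝ) * x ^ 2 = 7) : (dd e l : ℝ) ≠ 0 ∧ ∃ Q : ℚ, (derivative (PL l)).eval x =
      (PL l).eval x * (e * (x * ((nn e l : ℝ) / dd e l) + Q)) := by
  induction l with
  | nil => exact ⟨by simp [dd], 0, by simp [PL, nn]⟩
  | cons p l ih =>
    obtain ⟨h1, Q, hQ⟩ := ih fun q hq => h q (List.mem_cons_of_mem _ hq)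
    have h2 : (0 : ℝ) < p.2 := by exact_mod_cast h p List.mem_cons_self
    have h3 := irr_ne he hx
    have h4 : (7 * (p.2 * p.2) - e * (p.1 * p.1) : ℝ) ≠ 0 := by
      intro h5
      have h6 : (e : ℝ) * (x - fr p) * (x + fr p) = 0 := by
        have : (e : ℝ) * (x - fr p) * (x + fr p) = e * x ^ 2 - e * (fr p : ℝ) ^ 2 := by ring
        rw [this, hx]
        simp only [fr]
        push_cast
        field_simp
        linear_combination h5
      rcases mul_eq_zero.1 h6 with h7 | h7
      · rcases mul_eq_zero.1 h7 with h8 | h8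
        · rcases he with rfl | rfl <;> norm_num at h8
        · exact h3 _ (sub_eq_zero.1 h8)
      · exact h3 (-(fr p)) (by push_cast; linarith)
    have h5 : x - (fr p : ℚ) ≠ 0 := sub_ne_zero.2 (h3 _)
    refine ⟨?_, Q + fr p * (p.2 * p.2) / (7 * (p.2 * p.2) - e * (p.1 * p.1)), ?_⟩
    · simp only [dd]
      push_cast
      exact mul_ne_zero h4 h1
    · rw [PL_cons, derivative_mul, eval_add, eval_mul, eval_mul, hQ, derivative_X_sub_C, eval_one,
        one_mul, eval_mul, eval_sub, eval_X, eval_C]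
      have h6 : (e : ℝ) * (x + fr p) * (p.2 * p.2) / (7 * (p.2 * p.2) - e * (p.1 * p.1)) =
          1 / (x - fr p) := by
        rw [div_eq_div_iff h4 h5, one_mul]
        have h7 : (fr p : ℝ) * p.2 = p.1 := by
          simp only [fr]
          push_cast
          field_simp
        have h8 : (p.1 : ℝ) * p.1 = (fr p : ℝ) ^ 2 * (p.2 * p.2) := by
          rw [← h7]
          ring
        rw [h8]
        linear_combination (p.2 * p.2 : ℝ) * hx
      simp only [dd, nn]
      push_cast
      have h7 : ∀ w : ℝ, w ≠ 0 → (e : ℝ) * (x * ((p.2 * p.2 * dd e l + w *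
            nn e l) / (w * dd e l)) + (Q + fr p * (p.2 * p.2) / w)) =
          e * (x * ((nn e l : ℝ) / dd e l) + Q) + (e : ℝ) * (x + fr p) * (p.2 * p.2) / w := by
        intro w hw
        field_simp
        ring
      rw [h7 _ h4, h6]
      field_simp
      ring

lemma good_of_cert {l : List (ℤ × ℤ)} {c x₀ : ℤ} (h : cert l c x₀) :
    ∃ S : Finset ℚ, S.card = l.length ∧ Good S x₀ := by
  classical
  obtain ⟨⟨hok, h1, h2, h3, h4, h5, h6, hc, p, hp, hp3⟩, n1, n2, n3, c1, c2, c3⟩ := h
  have hnd := hok.nodup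
  have hd := dn_pos l hok.1
  have hdQ : (0 : ℚ) < dn l := by exact_mod_cast hd
  have hcQ : (0 : ℚ) < c := by exact_mod_cast hc
  have hev : ∀ x : ℤ, (PS (l.map fr).toFinset).eval (x : ℚ) = (nm x l : ℚ) / dn l := by
    intro x
    rw [← eval_list l hok.1 x]
    unfold PS
    rw [eval_prod, List.prod_toFinset _ hnd]
    congr 1
    apply List.map_congr_left
    intro s _
    simp
  have hev7 : ∀ x : ℤ, (PS (l.map fr).toFinset).eval ((x : ℚ) / 7) =
      (nm7 x l : ℚ) / (7 ^ l.length * dn l) := by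
    intro x
    have h7 : ∀ l : List (ℤ × ℤ), (∀ p ∈ l, 0 < p.2) →
        ((l.map fr).map fun s => (x : ℚ) / 7 - s).prod = (nm7 x l : ℚ) / (7 ^ l.length * dn l) := by
      intro l
      induction l with
      | nil => intro _; simp [nm7, dn]
      | cons p l ih =>
        intro h
        have h1 : (0 : ℚ) < p.2 := by exact_mod_cast h p List.mem_cons_self
        rw [List.map_cons, List.map_cons, List.prod_cons,
          ih fun q hq => h q (List.mem_cons_of_mem _ hq), List.length_cons, pow_succ]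
        rw [dn_cons]
        simp only [nm7, fr]
        push_cast
        have h8 : (7 : ℚ) ^ l.length * 7 * (p.2 * dn l) = (7 * p.2) * (7 ^ l.length * dn l) := by
          ring
        rw [h8, mul_div_mul_comm]
        congr 1
        field_simp
    rw [← h7 l hok.1]
    unfold PS
    rw [eval_prod, List.prod_toFinset _ hnd]
    congr 1
    apply List.map_congr_left
    intro s _
    simp
  have h7n : (7 ^ l.length * dn l : ℚ) ≠ 0 := by positivity
  refine ⟨(l.map fr).toFinset, ?_, ⟨⟨(c : ℚ) / dn l, by positivity, ?_⟩, ⟨fr p, ?_, ?_⟩, ?_, ?_, ?_,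
    ?_⟩⟩
  · rw [List.toFinset_card_of_nodup hnd, List.length_map]
  · intro j
    fin_cases j
    · have := hev (-3); rw [h1] at this; simpa [x6] using this
    · have := hev (-2); rw [h2] at this; simpa [x6] using this
    · have := hev (-1); rw [h3] at this; simpa [x6] using this
    · have := hev 1; rw [h4] at this; simpa [x6] using this
    · have := hev 2; rw [h5] at this; simpa [x6] using this
    · have := hev 3; rw [h6] at this; simpa [x6] using this
  · rw [List.mem_toFinset, List.mem_map]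
    exact ⟨p, hp, rfl⟩
  · have h1 : (0 : ℚ) < p.2 := by exact_mod_cast hok.1 p hp
    unfold fr
    rw [lt_div_iff₀ h1]
    exact_mod_cast hp3
  · have h8 := hev (-x₀)
    push_cast at h8
    rw [h8, hev x₀]
    intro h9
    rw [div_left_inj' hdQ.ne'] at h9
    exact n1 (by exact_mod_cast h9)
  · have h8 := hev7 18
    have h9 := hev7 1
    push_cast at h8 h9
    rw [h8, h9]
    intro h10
    rw [div_left_inj' h7n] at h10
    exact n2 (by exact_mod_cast h10)
  · have h8 := hev7 18
    have h9 := hev7 (-1)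
    push_cast at h8 h9
    rw [neg_div] at h9
    rw [h8, h9]
    intro h10
    rw [div_left_inj' h7n] at h10
    exact n3 (by exact_mod_cast h10)
  · intro x hx
    rw [toR_PS l hnd]
    have key : ∀ e : ℤ, (e = 1 ∨ e = 3) → (e : ℝ) * x ^ 2 = 7 → nn e l ≠ 0 →
        (derivative (PL l)).eval x ≠ 0 := by
      intro e he hx2 hne
      obtain ⟨h8, Q, h9⟩ := PL_irr l hok.1 he hx2
      have h10 := irr_ne he hx2
      rw [h9]
      refine mul_ne_zero (PL_ne l h10) (mul_ne_zero ?_ ?_)
      · rcases he with rfl | rfl <;> norm_num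
      · intro h11
        have h12 : (nn e l : ℝ) ≠ 0 := by exact_mod_cast hne
        apply h10 (- Q * (dd e l) / nn e l)
        push_cast
        rw [eq_div_iff h12]
        field_simp at h11
        linear_combination h11
    rcases crit_cases hx with h8 | h8 | h8
    · rw [h8]
      have h9 := PL_der l hok.1 0
      push_cast at h9
      rw [h9]
      refine div_ne_zero ?_ ?_
      · exact_mod_cast c1
      · exact_mod_cast hd.ne'
    · exact key 1 (Or.inl rfl) (by push_cast; linarith) c2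
    · exact key 3 (Or.inr rfl) (by push_cast; linarith) c3

end

end Pool.Agent.J4H20.AS
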