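import Pool.Agent.TH665.CG6.Chain

/-!
# Project AS6: exact statements

`G(x) = (x³ - 7x)²`.  For a polynomial `A` and real `κ` let `F_κ = A (G - κ)`.  All statements are about real
polynomials, except `S_BLK` (rational blocks).
-/

set_option autoImplicit false

namespace Pool.Agent.J4H20.AS

open Polynomial Pool.Agent.W460.CG

noncomputable section

/-- the monic polynomial with the roots `T` -/
def RP (T : Finset ℝ) : ℝ[X] := ∏ t ∈ T, (X - C t)

/-- `G = (X ^ 3 - 7 X) ^ 2` -/
def GP : ℝ[X] := (X ^ 3 - C 7 * X) ^ 2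

/-- different real critical points of `F` have different values -/
def NoTie (F : ℝ[X]) : Prop :=
  ∀ x y : ℝ, (derivative F).eval x = 0 → (derivative F).eval y = 0 → x ≠ y → F.eval x ≠ F.eval y

/-- (CNT) Let `F = ∏ (X - t)`, `t ∈ T`, have no ties. Then the number of real solutions of `F = - v`, `v > 0`, takes every
value `r ≤ |T|` of the parity of `|T|`, for all `v` in some interval.

Proof.  Sort the roots `a_0 < … < a_{n-1}`.  `F < 0` exactly on the lobes `(a_{n-2}, a_{n-1})`, `(a_{n-4}, a_{n-3})`, …, and,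
if `n` is odd, on `(-∞, a_0)`, where `F` is strictly monotone from `-∞` to `0` (one solution).  `F` has `n - 1` simple critical
points, one between any two neighbours (Rolle and the degree; `F'` has at most `n - 1` roots), so on a lobe `F` decreases
to its minimum `- d_i` and then increases: 2 solutions if `v < d_i`, 0 if `v > d_i`.  The `d_i` are different (NoTie), so the
number of the `i` with `v < d_i` takes all values `0, …, ⌊n/2⌋` (choose `v` between two neighbours of the sorted `d_i`, or
below or above all of them).  Tools for counting: `Pool.Agent.R713.AS.Gap` (`gap`, `left`, `ncard_pieces`, used in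
`R713/AS/Cnt.lean` and `N855/SG/Cert.lean`: lobes by gaps, `left'`, `sign`).  An alternative without lobes: the number of
solutions is `n` for small `v`, `n % 2` for large `v`, locally constant at noncritical values, and changes by at most 2
when `v` crosses a critical value (which has one critical point), and it always has the parity of `n`. -/
def S_CNT : Prop :=
  ∀ T : Finset ℝ, T.Nonempty → NoTie (RP T) → ∀ r : ℕ, r ≤ T.card → r % 2 = T.card % 2 →
    ∃ v₁ v₂ : ℝ, 0 < v₁ ∧ v₁ < v₂ ∧ ∀ v : ℝ, v₁ < v → v < v₂ →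
      {x : ℝ | (RP T).eval x = - v}.ncard = r

/-- The hypotheses of BR and TIE: `A (G - κ)` has only real simple roots for `c < κ < d`, and `A'`, `G'` have no common real
zero. -/
structure Hyp (A : ℝ[X]) (c d : ℝ) : Prop where
  lt : c < d
  split : ∀ κ : ℝ, c < κ → κ < d → ∃ U : Finset ℝ, U.Nonempty ∧ RP U = A * (GP - C κ)
  coprime : ∀ x : ℝ, (derivative A).eval x = 0 → (derivative GP).eval x ≠ 0

/-- (BR) The critical points of `F_κ = A (G - κ)` are, locally in `κ`, given by finitely many differentiable functions with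
pairwise different values.

Proof.  For `κ₀` let `F = F_{κ₀} = RP U`, `n = |U|`: `F'` has `n - 1` simple real roots `c_i` (Rolle: one between any two
neighbouring roots of `F`, and the degree).  Choose pairwise disjoint closed intervals `I_i` around the `c_i` with `F'`
of different signs at the two ends.  For `κ` near `κ₀` the signs at the ends are the same (continuity), so `F_κ'` has a root in
the interior of each `I_i`, and as the degree of `F_κ'` is `n - 1` these are all roots, one in each `I_i`: this defines `ξ_i(κ)`.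
`ξ_i` is continuous at every `κ₁` near `κ₀`: apply the same to small intervals around the `ξ_i(κ₁)` (uniqueness).
Differentiable: `F_κ' = A' (G - κ) + A G'`; at `x = ξ_i(κ)` we have `A'(x) ≠ 0` (else `A(x) G'(x) = 0`, but `G'(x) ≠ 0` by
`coprime` and `A(x) ≠ 0` since `F_κ` has simple roots), so `κ = h(x)` with `h = G + A G' / A'`; `F_κ' = A' (h - κ)` gives
`F_κ''(x) = A'(x) h'(x)`, and `F_κ''(x) ≠ 0` (simple roots of `F_κ'`), so `h'(x) ≠ 0` and
`HasDerivAt.of_local_left_inverse` applies. -/
def S_BR : Prop :=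
  ∀ (A : ℝ[X]) (c d : ℝ), Hyp A c d → ∀ κ₀ : ℝ, c < κ₀ → κ₀ < d →
    ∃ c' d' : ℝ, c ≤ c' ∧ c' < κ₀ ∧ κ₀ < d' ∧ d' ≤ d ∧ ∃ (m : ℕ) (ξ : Fin m → ℝ → ℝ),
      (∀ κ : ℝ, c' < κ → κ < d' → ∀ x : ℝ,
        (derivative (A * (GP - C κ))).eval x = 0 ↔ ∃ i, x = ξ i κ) ∧
      (∀ κ : ℝ, c' < κ → κ < d' → Function.Injective fun i => ξ i κ) ∧
      ∀ i, ∀ κ : ℝ, c' < κ → κ < d' → DifferentiableAt ℝ (ξ i) κ

/-- (TIE) Either there are no ties for all `κ` in some subinterval, or `G(x) = G(y)`, `A(x) = A(y)`, `x ≠ y` has solutions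
for infinitely many `x`.  The proof may use `S_BR` as a hypothesis: `t_TIE : S_BR → S_TIE`.

Proof.  Take `c', d', ξ` from BR (for the middle `κ₀`).  For `i ≠ j` put `D_ij(κ) = F_κ(ξ_i(κ)) - F_κ(ξ_j(κ))`, continuous on
`(c', d')`.  If for some nonempty open subinterval no `D_ij` (`i ≠ j`) vanishes, we are done.  Otherwise the union of the
closed sets `D_ij = 0` contains (is dense in, hence is) the whole interval, so (finite union of closed sets, Baire is not
needed: remove them one after the other, or `interior_union_isClosed_of_interior_empty`) one of them contains an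
open interval `J`: `F_κ(ξ_i(κ)) = F_κ(ξ_j(κ))` for all `κ ∈ J`.  Differentiate: `d/dκ [A(ξ)(G(ξ) - κ)] = ξ' F_κ'(ξ) - A(ξ) =
- A(ξ)`, so `A(ξ_i(κ)) = A(ξ_j(κ))` on `J`; it is not `0` (a common root of `F_κ`, `F_κ'` contradicts simple roots), so
`G(ξ_i(κ)) = G(ξ_j(κ))`.  And `κ ↦ ξ_i(κ)` is injective on `J` (if `x = ξ_i(κ) = ξ_i(κ')` then `A'(x)(κ - κ') = 0`, so `A'(x) = 0`,
`A(x) G'(x) = 0`: contradiction to `coprime`), so there are infinitely many `x`. -/
def S_TIE : Prop :=
  ∀ (A : ℝ[X]) (c d : ℝ), Hyp A c d →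
    (∃ c' d' : ℝ, c ≤ c' ∧ c' < d' ∧ d' ≤ d ∧
      ∀ κ : ℝ, c' < κ → κ < d' → NoTie (A * (GP - C κ))) ∨
    {x : ℝ | ∃ y : ℝ, x ≠ y ∧ GP.eval x = GP.eval y ∧ A.eval x = A.eval y}.Infinite

/-- `(cx u, cy u)` runs through the conic `x² + x y + y² = 7` without the point `(1, -3)` -/
def cx (u : ℝ) : ℝ := (2 + 6 * u + u ^ 2) / (1 + u + u ^ 2)

/-- see `cx` -/
def cy (u : ℝ) : ℝ := (1 - 4 * u - 3 * u ^ 2) / (1 + u + u ^ 2)

/-- (ALG) If `G(x) = G(y)`, `A(x) = A(y)`, `x ≠ y` has solutions for infinitely many `x`, then `A` is even, or `A(x) = A(y)` on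
the conic, or `A(x) = A(-y)` on the conic.

Proof.  `G(x) - G(y) = (x - y) (x² + x y + y² - 7) (x + y) (x² - x y + y² - 7)`.  One of the three factors vanishes for
infinitely many `x` (and some `y` as above).  `x + y = 0`: the polynomial `A(X) - A(-X)` has infinitely many roots.
`x² + x y + y² = 7`: all points but `(1, -3)` are `(cx u, cy u)` with `u = (4 x - y - 7) / (x + 5 y + 14)` (the line
`x + 5 y + 14 = 0` is the tangent at `(1, -3)`), so `A(cx u) = A(cy u)` for infinitely many `u`, and
`(1 + u + u²)^N (A(cx u) - A(cy u))`, `N = deg A`, is a polynomial in `u`.  Third factor: replace `y` by `- y`. -/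
def S_ALG : Prop :=
  ∀ A : ℝ[X], {x : ℝ | ∃ y : ℝ, x ≠ y ∧ GP.eval x = GP.eval y ∧ A.eval x = A.eval y}.Infinite →
    (∀ x : ℝ, A.eval (- x) = A.eval x) ∨ (∀ u : ℝ, A.eval (cx u) = A.eval (cy u)) ∨
      ∀ u : ℝ, A.eval (cx u) = A.eval (- cy u)

/-- (BLK) Rational blocks are dense.

Proof.  For rational `u ∈ (0, (√28 - 4)/6)` the numbers `x = cx u > y = cy u > 0`, `z = x + y` satisfy `x² + x y + y² = 7`, and
`B = {±x, ±y, ±z}` has `PS B = (X³ - 7 X)² - (x y z)²` (see `block6` in `TH665/CG6/Chain.lean`, `PS3` and `block6` in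
`TH805/CG/Ext.lean`).  `K(u) = x y z` is continuous, `K(0) = 6`, `K = 0` at the right end, so it takes the value `(c + d)/2` and
lies in `(c, d)` for all rational `u` in an open interval; all but finitely many of them give `B` disjoint from `F` and
`k ∉ F` (`x = cx u` takes each value at most twice, and so on; `x, y, z ≠ 0`, `x ≠ y`, as `u` is in the open interval). -/
def S_BLK : Prop :=
  ∀ c d : ℝ, 0 ≤ c → c < d → d ≤ 6 → ∀ F : Finset ℚ, ∃ (B : Finset ℚ) (k : ℚ), B.card = 6 ∧ Disjoint F B ∧
    c < (k : ℝ) ∧ (k : ℝ) < d ∧ k ∉ F ∧ PS B = (X ^ 3 - C 7 * X) ^ 2 - C (k ^ 2)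

/-- (ROOT) `G - κ` has six simple real roots for `0 < κ < 36`.

Proof.  `G - κ = (g - k)(g + k)`, `g = X³ - 7X`, `k = √κ ∈ (0, 6)`: sign changes of `g - k`: `g(-3) = -6 < k`, `g(-1) = 6 > k`,
`g(0) = 0 < k`, `g(3) = 6 > k`, three roots in `(-3,-1)`, `(-1,0)`, `(0,3)`; the roots of `g + k` are their negatives; no common
roots as `k ≠ -k`.  A monic polynomial of degree 6 with 6 different roots is `RP` of them. -/
def S_ROOT : Prop :=
  ∀ κ : ℝ, 0 < κ → κ < 36 → ∃ U : Finset ℝ, U.card = 6 ∧ RP U = GP - C κ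

end

end Pool.Agent.J4H20.AS
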