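import Pool.Agent.TH665.CG6.Grow
import Pool.Agent.J4H20.AS.Stm

/-!
# Project AS6: the sets of roots and their growth
-/

set_option autoImplicit false

namespace Pool.Agent.J4H20.AS

open Polynomial Pool.Agent.W460.CG Pool.Agent.TH665.CG6

noncomputable section

/-- the polynomial over `ℝ` -/
def toR (P : ℚ[X]) : ℝ[X] := P.map (Rat.castHom ℝ)

lemma toR_mul (P Q : ℚ[X]) : toR (P * Q) = toR P * toR Q := Polynomial.map_mul _

lemma toR_eval (P : ℚ[X]) (x : ℚ) : (toR P).eval (x : ℝ) = ((P.eval x : ℚ) : ℝ) := by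
  unfold toR
  have h : ((x : ℚ) : ℝ) = Rat.castHom ℝ x := rfl
  rw [h, eval_map, eval₂_hom]
  rfl

lemma toR_block (k : ℚ) : toR ((X ^ 3 - C 7 * X) ^ 2 - C (k ^ 2)) = GP - C ((k : ℝ) ^ 2) := by
  unfold toR GP
  simp

/-- the invariants -/
structure Good (S : Finset ℚ) (x₀ : ℚ) : Prop where
  eq6 : ∃ w, 0 < w ∧ Eq6 S w
  big : ∃ s ∈ S, 3 < s
  ne1 : (PS S).eval (-x₀) ≠ (PS S).eval x₀
  ne2 : (PS S).eval (18 / 7) ≠ (PS S).eval (1 / 7)
  ne3 : (PS S).eval (18 / 7) ≠ (PS S).eval (-(1 / 7))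
  cop : ∀ x : ℝ, (derivative GP).eval x = 0 → (derivative (toR (PS S))).eval x ≠ 0

lemma GP_eval (x : ℝ) : GP.eval x = (x ^ 3 - 7 * x) ^ 2 := by
  simp [GP]

lemma dGP_eval (x : ℝ) : (derivative GP).eval x = 2 * (x ^ 3 - 7 * x) * (3 * x ^ 2 - 7) := by
  have hder : derivative ((X ^ 3 - C 7 * X : ℝ[X]) ^ 2) =
      C 2 * (X ^ 3 - C 7 * X) * (C 3 * X ^ 2 - C 7) := by
    rw [derivative_sq, derivative_sub,
      derivative_X_pow, derivative_C_mul, derivative_X]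
    norm_num
  unfold GP
  rw [hder]
  simp

/-- the real critical points of `G` -/
lemma crit_cases {x : ℝ} (h : (derivative GP).eval x = 0) : x = 0 ∨ x ^ 2 = 7 ∨ 3 * x ^ 2 = 7 := by
  rw [dGP_eval] at h
  rcases mul_eq_zero.1 h with h | h
  · have h1 : x * (x ^ 2 - 7) = 0 := by linear_combination h / 2
    rcases mul_eq_zero.1 h1 with h2 | h2
    · exact Or.inl h2
    · exact Or.inr (Or.inl (by linarith))
  · exact Or.inr (Or.inr (by linarith))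

lemma crit_val {x k : ℝ} (h : (derivative GP).eval x = 0) (h0 : 0 < k) (h6 : k < 6) :
    GP.eval x - k ^ 2 ≠ 0 := by
  rw [GP_eval]
  have hk : 0 < k ^ 2 := by positivity
  have hk' : k ^ 2 < 36 := by nlinarith
  rcases crit_cases h with h1 | h1 | h1
  · rw [h1]
    norm_num
    exact h0.ne'
  · have : (x ^ 3 - 7 * x) ^ 2 = 0 := by
      have : x ^ 3 - 7 * x = x * (x ^ 2 - 7) := by ring
      rw [this, h1]
      norm_num
    rw [this]
    linarith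
  · have h2 : x ^ 2 = 7 / 3 := by linarith
    have : (x ^ 3 - 7 * x) ^ 2 = 1372 / 27 := by
      have : (x ^ 3 - 7 * x) ^ 2 = x ^ 2 * (x ^ 2 - 7) ^ 2 := by ring
      rw [this, h2]
      norm_num
    rw [this]
    linarith

lemma Good.step {S : Finset ℚ} {x₀ : ℚ} (h : Good S x₀) :
    ∃ T : Finset ℚ, T.card = S.card + 6 ∧ Good T x₀ := by
  classical
  obtain ⟨w, hw, h6⟩ := h.eq6
  obtain ⟨s, hs, hs3⟩ := h.big
  obtain ⟨B, k, k1, k2, k3, k4, k5, k6⟩ := block6 S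
    {(x₀ ^ 3 - 7 * x₀) ^ 2, (((18 : ℚ) / 7) ^ 3 - 7 * (18 / 7)) ^ 2}
  simp only [Finset.mem_insert, Finset.mem_singleton, not_or] at k5
  have hk : 0 < 36 - k ^ 2 := by nlinarith
  have hev : ∀ x : ℚ, (PS (S ∪ B)).eval x = (PS S).eval x * ((x ^ 3 - 7 * x) ^ 2 - k ^ 2) := by
    intro x
    rw [PS_union k2, eval_mul, k6]
    simp
  refine ⟨S ∪ B, ?_, ⟨w * (36 - k ^ 2), by positivity, h6.union k2 (eq6_block k6)⟩,
    ⟨s, Finset.mem_union_left _ hs, hs3⟩, ?_, ?_, ?_, ?_⟩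
  · rw [Finset.card_union_of_disjoint k2, k1]
  · rw [hev, hev]
    have h1 : (((-x₀) ^ 3 - 7 * (-x₀)) ^ 2 : ℚ) = (x₀ ^ 3 - 7 * x₀) ^ 2 := by ring
    rw [h1]
    intro h2
    exact h.ne1 (mul_right_cancel₀ (sub_ne_zero.2 fun h3 => k5.1 h3.symm) h2)
  · rw [hev, hev]
    have h1 : (((1 / 7 : ℚ)) ^ 3 - 7 * (1 / 7)) ^ 2 = (((18 : ℚ) / 7) ^ 3 - 7 * (18 / 7)) ^ 2 := by
      norm_num
    rw [h1]
    intro h2
    exact h.ne2 (mul_right_cancel₀ (sub_ne_zero.2 fun h3 => k5.2 h3.symm) h2)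
  · rw [hev, hev]
    have h1 : ((-(1 / 7 : ℚ)) ^ 3 - 7 * (-(1 / 7))) ^ 2 =
        (((18 : ℚ) / 7) ^ 3 - 7 * (18 / 7)) ^ 2 := by
      norm_num
    rw [h1]
    intro h2
    exact h.ne3 (mul_right_cancel₀ (sub_ne_zero.2 fun h3 => k5.2 h3.symm) h2)
  · intro x hx
    rw [PS_union k2, toR_mul, k6, toR_block, derivative_mul, derivative_sub, derivative_C,
      sub_zero, eval_add, eval_mul, eval_mul, hx, mul_zero, add_zero, eval_sub, eval_C]
    exact mul_ne_zero (h.cop x hx) (crit_val hx (by exact_mod_cast k3) (by exact_mod_cast k4))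

lemma Good.grow {S : Finset ℚ} {x₀ : ℚ} (h : Good S x₀) (m : ℕ) :
    ∃ T : Finset ℚ, T.card = S.card + 6 * m ∧ Good T x₀ := by
  induction m with
  | zero => exact ⟨S, by simp, h⟩
  | succ m ih =>
    obtain ⟨T, h1, h2⟩ := ih
    obtain ⟨T', h3, h4⟩ := h2.step
    exact ⟨T', by omega, h4⟩

end

end Pool.Agent.J4H20.AS
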