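import Pool.Agent.J4H20.AS.Cert

/-!
# Project AS6: explicit sets of roots, one for each residue modulo 6
-/

set_option autoImplicit false

namespace Pool.Agent.J4H20.AS

/-- a set of size 60 -/
def E0 : List (ℤ × ℤ) :=
  [(-26, 1), (-17, 1), (-12, 1), (-19, 2), (-9, 1), (-26, 3), (-6, 1), (-21, 4), (-14, 3),
   (-59, 13), (-9, 2), (-4, 1), (-11, 3), (-17, 5), (-35, 11), (-58, 19), (-38, 13), (-19, 7),
   (-8, 3), (-5, 2), (-9, 4), (-24, 11), (-12, 7), (-31, 19), (-4, 3), (-21, 17), (-7, 9),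
   (-1, 4), (-1, 5), (-1, 17), (1, 13), (1, 5), (1, 4), (7, 9), (21, 17), (4, 3), (31, 19),
   (12, 7), (24, 11), (9, 4), (47, 19), (8, 3), (19, 7), (38, 13), (58, 19), (35, 11), (17, 5),
   (11, 3), (43, 11), (4, 1), (59, 13), (14, 3), (21, 4), (6, 1), (26, 3), (19, 2), (12, 1),
   (17, 1), (19, 1), (26, 1)]

lemma e0 : cert E0 108742433261821368618352959434741200420809435795947520000000000000000 5 := by decide +kernel

/-- a set of size 31 -/
def E1 : List (ℤ × ℤ) :=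
  [(-53, 1), (-15, 1), (-11, 2), (-83, 19), (-4, 1), (-11, 3), (-94, 31), (-38, 13), (-8, 3),
   (-47, 19), (-7, 3), (-17, 9), (-11, 7), (-6, 7), (-4, 7), (-6, 11), (1, 7), (6, 11), (6, 7),
   (3, 2), (11, 7), (29, 13), (9, 4), (47, 19), (38, 13), (94, 31), (17, 5), (4, 1), (83, 19),
   (9, 2), (5, 1)]

lemma e1 : cert E1 115332911833119439020097536000000000 5 := by decide +kernel

/-- a set of size 44 -/
def E2 : List (ℤ × ℤ) :=
  [(-13, 1), (-19, 3), (-14, 3), (-59, 13), (-9, 2), (-10, 3), (-13, 4), (-35, 11), (-58, 19),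
   (-94, 31), (-53, 19), (-18, 7), (-9, 4), (-24, 11), (-17, 9), (-31, 19), (-11, 8),
   (-21, 17), (-5, 7), (-6, 19), (-1, 4), (-1, 5), (-1, 17), (1, 4), (6, 19), (5, 7), (21, 17),
   (19, 15), (31, 19), (17, 9), (24, 11), (9, 4), (18, 7), (53, 19), (94, 31), (58, 19),
   (35, 11), (10, 3), (11, 3), (31, 7), (9, 2), (59, 13), (14, 3), (19, 3)]

lemma e2 : cert E2 661013170617931941334355688322337045741568000000000000 5 := by decide +kernel

/-- a set of size 45 -/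
def E3 : List (ℤ × ℤ) :=
  [(-23, 1), (-19, 1), (-14, 1), (-12, 1), (-9, 1), (-6, 1), (-9, 2), (-83, 19), (-4, 1),
   (-7, 2), (-17, 5), (-13, 4), (-94, 31), (-38, 13), (-47, 19), (-9, 4), (-33, 16), (-5, 3),
   (-29, 23), (-3, 5), (-4, 7), (-2, 5), (-1, 4), (-1, 7), (1, 2), (4, 7), (3, 4), (29, 23),
   (5, 3), (33, 16), (9, 4), (12, 5), (38, 13), (94, 31), (13, 4), (17, 5), (7, 2), (11, 3),
   (4, 1), (9, 2), (11, 2), (9, 1), (14, 1), (19, 1), (23, 1)]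

lemma e3 : cert E3 385587151174971106857146182334939136000000000000 5 := by decide +kernel

/-- a set of size 28 -/
def E4 : List (ℤ × ℤ) :=
  [(-17, 1), (-12, 1), (-9, 1), (-6, 1), (-9, 2), (-4, 1), (-38, 13), (-19, 7), (-8, 3),
   (-5, 2), (-12, 7), (-4, 3), (-1, 5), (-1, 17), (1, 13), (1, 5), (4, 3), (12, 7), (47, 19),
   (8, 3), (19, 7), (38, 13), (43, 11), (4, 1), (6, 1), (12, 1), (17, 1), (19, 1)]

lemma e4 : cert E4 20252245113096935178240000000 5 := by decide +kernel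

/-- a set of size 29 -/
def E5 : List (ℤ × ℤ) :=
  [(-18, 1), (-15, 1), (-14, 1), (-13, 1), (-12, 1), (-10, 1), (-9, 1), (-8, 1), (-13, 4),
   (-38, 13), (-8, 3), (-7, 3), (-9, 4), (-2, 5), (-1, 9), (-1, 13), (1, 13), (1, 9), (3, 7),
   (29, 13), (7, 3), (8, 3), (38, 13), (13, 4), (5, 1), (11, 2), (7, 1), (15, 1), (18, 1)]

lemma e5 : cert E5 1418884566711518610063360000000 5 := by decide +kernel

/-- the sets exist -/
theorem base_all (n : ℕ) (hn : 61 ≤ n ∨ (n % 6 = 4 ∧ 34 ≤ n) ∨ (n % 6 = 5 ∧ 35 ≤ n) ∨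
    (n % 6 = 1 ∧ 37 ≤ n) ∨ (n % 6 = 2 ∧ 50 ≤ n) ∨ (n % 6 = 3 ∧ 51 ≤ n)) :
    ∃ T : Finset ℚ, T.card + 6 = n ∧ Good T 5 := by
  have key : ∀ (l : List (ℤ × ℤ)) (c : ℤ), cert l c 5 → l.length + 6 ≤ n →
      n % 6 = l.length % 6 → ∃ T : Finset ℚ, T.card + 6 = n ∧ Good T 5 := by
    intro l c h h1 h2
    obtain ⟨S, h3, h4⟩ := good_of_cert h
    push_cast at h4
    obtain ⟨T, h5, h6⟩ := h4.grow ((n - l.length) / 6 - 1)
    exact ⟨T, by omega, h6⟩
  have h0 : E0.length = 60 := rfl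
  have h1 : E1.length = 31 := rfl
  have h2 : E2.length = 44 := rfl
  have h3 : E3.length = 45 := rfl
  have h4 : E4.length = 28 := rfl
  have h5 : E5.length = 29 := rfl
  have hcase : n % 6 = 0 ∨ n % 6 = 1 ∨ n % 6 = 2 ∨ n % 6 = 3 ∨ n % 6 = 4 ∨ n % 6 = 5 := by omega
  rcases hcase with h | h | h | h | h | h
  · exact key E0 _ e0 (by rw [h0]; omega) (by rw [h0]; omega)
  · exact key E1 _ e1 (by rw [h1]; omega) (by rw [h1]; omega)
  · exact key E2 _ e2 (by rw [h2]; omega) (by rw [h2]; omega)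
  · exact key E3 _ e3 (by rw [h3]; omega) (by rw [h3]; omega)
  · exact key E4 _ e4 (by rw [h4]; omega) (by rw [h4]; omega)
  · exact key E5 _ e5 (by rw [h5]; omega) (by rw [h5]; omega)

end Pool.Agent.J4H20.AS
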